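import Mathlib

/-!
# MP_04502c_nt: decay of `limsup a(n)/n` for almost Golomb sequences (Q1 is true)

We prove `lim_{r → ∞} L_max(r) = 0`.  The linear inequalities
`a(x) ≤ ε (x - 2r - 1)` and `a(x) ≥ x/(rε) + 2r` propagate exactly through the nested relation, and
for `r` large they hold on the initial block `[S(4r), S(S(4r)+1)]`, `S(n) = a(n)+...+a(n-r+1)`,
by crude bounds in the Golomb regime (`a(m) ≥ √m - 1`, `S(n) ≫ n^{3/2}` for `n ≤ 5r`).
-/

open Filter Topology Finset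

namespace Pool.Agent.Results.MP_04502c_nt.LimitZero

/-- `a` is a nondecreasing sequence of positive integers `(a(n))_{n ≥ 1}`, extended by `a(k) = 0`
for `k ≤ 0`, with `a(a(n) + a(n-1) + ⋯ + a(n-r+1)) = n` for all `n ≥ 1`. -/
structure IsNested (r : ℕ) (a : ℤ → ℤ) : Prop where
  zero : ∀ k : ℤ, k ≤ 0 → a k = 0
  pos : ∀ n : ℤ, 1 ≤ n → 0 < a n
  mono : ∀ m n : ℤ, 1 ≤ m → m ≤ n → a m ≤ a n
  nested : ∀ n : ℤ, 1 ≤ n → a (∑ i ∈ range r, a (n - i)) = n

/-- The almost Golomb sequence of order `r`: moreover each term is as small as possible. -/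
structure IsAlmostGolomb (r : ℕ) (a : ℤ → ℤ) : Prop extends IsNested r a where
  minimal : ∀ n : ℤ, 2 ≤ n →
    ¬ ∃ m : ℤ, a (n - 1) ≤ m ∧ m < a n ∧ a (m + ∑ i ∈ Ico 1 r, a (n - i)) = n

/-- `L_max = limsup a(n)/n`. -/
noncomputable def Lmax (a : ℤ → ℤ) : ℝ := limsup (fun n : ℕ => (a n : ℝ) / n) atTop

/-! ### The natural number version -/

/-- natural number version of the hypotheses -/
structure NB (r : ℕ) (b : ℕ → ℕ) : Prop where
  zero : b 0 = 0
  mono : Monotone b
  nested : ∀ n : ℕ, 1 ≤ n → b (∑ i ∈ range r, b (n - i)) = n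

/-- window sums -/
def S (r : ℕ) (b : ℕ → ℕ) (n : ℕ) : ℕ := ∑ i ∈ range r, b (n - i)

namespace NB

variable {r : ℕ} {b : ℕ → ℕ} (h : NB r b)
include h

lemma recS (n : ℕ) (hn : 1 ≤ n) : b (S r b n) = n := h.nested n hn

lemma lt_of_lt {x y : ℕ} (hxy : b x < b y) : x < y := by
  by_contra hc
  push Not at hc
  exact absurd (h.mono hc) (not_le.mpr hxy)

lemma incr (k : ℕ) : b (k + 1) ≤ b k + 1 := by
  by_contra hc
  push Not at hc
  have h1 := h.recS (b k + 1) (by omega)
  have h2 : k < S r b (b k + 1) := h.lt_of_lt (by omega)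
  have h3 : S r b (b k + 1) < k + 1 := h.lt_of_lt (by omega)
  omega

lemma incr' (m k : ℕ) : b (m + k) ≤ b m + k := by
  induction k with
  | zero => simp
  | succ k ih =>
    have := h.incr (m + k)
    rw [← add_assoc]; omega

lemma le_self (n : ℕ) : b n ≤ n := by
  have := h.incr' 0 n
  rw [h.zero] at this
  simpa using this

lemma S_le (n : ℕ) : S r b n ≤ r * b n := by
  unfold S
  calc ∑ i ∈ range r, b (n - i) ≤ ∑ _i ∈ range r, b n :=
        sum_le_sum (fun i _ => h.mono (Nat.sub_le _ _))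
    _ = r * b n := by simp

lemma S_le' (n : ℕ) : S r b n ≤ n * b n := by
  unfold S
  calc ∑ i ∈ range r, b (n - i) ≤ ∑ i ∈ range (max r n), b (n - i) :=
        sum_le_sum_of_subset (range_subset_range.mpr (le_max_left _ _))
    _ = ∑ i ∈ range n, b (n - i) := by
        symm
        apply sum_subset (range_subset_range.mpr (le_max_right _ _))
        intro i _ hi
        have : n ≤ i := by simpa using hi
        rw [Nat.sub_eq_zero_of_le this, h.zero]
    _ ≤ ∑ _i ∈ range n, b n := sum_le_sum (fun i _ => h.mono (Nat.sub_le _ _))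
    _ = n * b n := by simp

lemma sq_lower (m : ℕ) : m < (b m + 1) ^ 2 := by
  have h1 := h.recS (b m + 1) (by omega)
  have h2 : m < S r b (b m + 1) := h.lt_of_lt (by omega)
  have h3 := h.S_le' (b m + 1)
  have h4 := h.le_self (b m + 1)
  nlinarith

lemma le_S (n q : ℕ) (hq : q ≤ r) : q * b (n - q) ≤ S r b n := by
  unfold S
  calc q * b (n - q) = ∑ _i ∈ range q, b (n - q) := by simp
    _ ≤ ∑ i ∈ range q, b (n - i) := by
        apply sum_le_sum
        intro i hi
        apply h.mono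
        have := mem_range.mp hi
        omega
    _ ≤ ∑ i ∈ range r, b (n - i) := sum_le_sum_of_subset (range_subset_range.mpr hq)

lemma le_S' (n : ℕ) : r * b n ≤ S r b n + r * r := by
  have h1 := h.le_S n r le_rfl
  have h2 : b n ≤ b (n - r) + r := by
    have h3 := h.incr' (n - r) r
    exact (h.mono (by omega)).trans h3
  nlinarith

/-- localisation -/
lemma loc (x : ℕ) (hx : 2 ≤ b x) : S r b (b x - 1) < x ∧ x < S r b (b x + 1) := by
  constructor
  · apply h.lt_of_lt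
    rw [h.recS _ (by omega)]
    omega
  · apply h.lt_of_lt
    rw [h.recS _ (by omega)]
    omega

/-- the crude bound in the Golomb regime -/
lemma crude {δ : ℝ} (hδ : 0 < δ) (hr : (2000 / δ ^ 2 + 20) / (4 * δ) ≤ r) (w : ℕ)
    (hw1 : 4 * r ≤ w) (hw2 : w ≤ S r b (4 * r) + 2) : (b w : ℝ) ≤ δ * w := by
  by_contra hc
  push Not at hc
  have hr0 : (0 : ℝ) < r := lt_of_lt_of_le (by positivity) hr
  have hr1 : 1 ≤ r := by exact_mod_cast hr0
  rw [div_le_iff₀ (by positivity)] at hr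
  have hw1' : (4 * r : ℝ) ≤ w := by exact_mod_cast hw1
  have hk1 : 4 * δ * r < b w := by nlinarith
  have hk2 : b w ≤ 4 * r + 2 := by
    have h1 := h.mono hw2
    have h2 := h.incr' (S r b (4 * r)) 2
    rw [h.recS _ (by omega)] at h2
    omega
  have hbig : (2000 / δ ^ 2 + 20 : ℝ) < b w := by nlinarith
  have h2000 : (0 : ℝ) < 2000 / δ ^ 2 := by positivity
  have hk20 : 20 < b w := by
    have : (20 : ℝ) < b w := by linarith
    exact_mod_cast this
  obtain ⟨n, hn⟩ : ∃ n, b w = n + 1 := ⟨b w - 1, by omega⟩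
  have hloc := (h.loc w (by omega)).1
  rw [hn, Nat.add_sub_cancel] at hloc
  -- n ≤ 5 r
  obtain ⟨q, hq⟩ : ∃ q, q = n / 5 := ⟨_, rfl⟩
  have hqr : q ≤ r := by omega
  have hS := h.le_S n q hqr
  have hB := h.sq_lower (n - q)
  set B := b (n - q) + 1 with hBdef
  have hB2 : 4 * n ≤ 5 * B ^ 2 := by
    have : 4 * n ≤ 5 * (n - q) := by omega
    nlinarith
  have hBge : 2 ≤ B := by
    by_contra hlt
    push Not at hlt
    have : B ≤ 1 := by omega
    have : B ^ 2 ≤ 1 := by nlinarith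
    omega
  have hq10 : n ≤ 10 * q := by omega
  have hSn : n * B ≤ 20 * S r b n := by
    have h1 : B ≤ 2 * b (n - q) := by omega
    calc n * B ≤ (10 * q) * (2 * b (n - q)) := Nat.mul_le_mul hq10 h1
      _ = 20 * (q * b (n - q)) := by ring
      _ ≤ 20 * S r b n := Nat.mul_le_mul_left _ hS
  have hSn' : (n : ℝ) * B ≤ 20 * S r b n := by exact_mod_cast hSn
  have hloc' : (S r b n : ℝ) < w := by exact_mod_cast hloc
  have hn' : (b w : ℝ) = n + 1 := by rw [hn]; push_cast; ring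
  have hn20 : (20 : ℝ) ≤ n := by
    have : 20 ≤ n := by omega
    exact_mod_cast this
  have hBpos : (0 : ℝ) < B := by
    have : 0 < B := by omega
    exact_mod_cast this
  -- δ n B / 20 < 2 n
  have h3 : δ * ((n : ℝ) * B) < 40 * n := by
    have h4 : δ * ((n : ℝ) * B) ≤ δ * (20 * S r b n) := mul_le_mul_of_nonneg_left hSn' hδ.le
    have h5 : δ * (20 * (S r b n : ℝ)) < 20 * (δ * w) := by nlinarith
    linarith
  have h6 : δ * B < 40 := by
    have hn0 : (0 : ℝ) < n := by linarith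
    by_contra hge
    push Not at hge
    have : 40 * (n : ℝ) ≤ δ * ((n : ℝ) * B) := by nlinarith
    linarith
  have h7 : (δ * B) ^ 2 < 1600 := by
    have : 0 < δ * B := by positivity
    nlinarith
  have hB2' : (4 : ℝ) * n ≤ 5 * (B : ℝ) ^ 2 := by exact_mod_cast hB2
  have h8 : δ ^ 2 * (4 * (n : ℝ)) < 8000 := by
    have : δ ^ 2 * (4 * (n : ℝ)) ≤ δ ^ 2 * (5 * (B : ℝ) ^ 2) :=
      mul_le_mul_of_nonneg_left hB2' (by positivity)
    nlinarith
  have h9 : (2000 / δ ^ 2 : ℝ) ≤ n := by linarith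
  rw [div_le_iff₀ (by positivity)] at h9
  linarith

/-- the main estimate -/
lemma main {ε : ℝ} (hε : 0 < ε) (hε1 : ε ≤ 1)
    (hr : (2000 / (ε ^ 2 / 64) ^ 2 + 20) / (4 * (ε ^ 2 / 64)) ≤ r)
    (hr2 : 16 / ε ^ 2 ≤ r) (x : ℕ) (hx : S r b (4 * r) ≤ x) :
    (b x : ℝ) ≤ ε * (x - 2 * r - 1) ∧ (x : ℝ) + 2 * r * (r * ε) ≤ (r * ε) * b x := by
  have hδ : (0 : ℝ) < ε ^ 2 / 64 := by positivity
  have hcrude := fun w => h.crude (w := w) hδ hr
  have hε2 : ε ^ 2 ≤ 1 := by nlinarith
  rw [div_le_iff₀ (by positivity)] at hr2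
  have hr16 : (16 : ℝ) ≤ r := by nlinarith
  have hr16' : 16 ≤ r := by exact_mod_cast hr16
  have hrpos : (0 : ℝ) < r := by linarith
  have hrε : (0 : ℝ) < r * ε := by positivity
  have hrε16 : 16 ≤ r * ε := by nlinarith
  set X₀ := S r b (4 * r) with hX₀
  set X₁ := S r b (X₀ + 1) with hX₁
  have hbX₀ : b X₀ = 4 * r := h.recS _ (by omega)
  have hbX₁ : b X₁ = X₀ + 1 := h.recS _ (by omega)
  have hX₀ge : 4 * r ≤ X₀ := by rw [← hbX₀]; exact h.le_self X₀
  -- size of X₀
  have hb4r : (b (4 * r) : ℝ) ≤ ε ^ 2 / 64 * (4 * r) := by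
    have h1 : 4 * r ≤ X₀ + 2 := by
      have := h.le_self X₀
      omega
    have := hcrude (4 * r) le_rfl h1
    push_cast at this
    exact this
  have hX₀le : (X₀ : ℝ) + 1 ≤ ε ^ 2 * r ^ 2 / 8 := by
    have h1 : (X₀ : ℝ) ≤ r * b (4 * r) := by exact_mod_cast h.S_le (4 * r)
    have h2 : (r : ℝ) * b (4 * r) ≤ r * (ε ^ 2 / 64 * (4 * r)) :=
      mul_le_mul_of_nonneg_left hb4r hrpos.le
    have h3 : (256 : ℝ) ≤ (r * ε) ^ 2 := by nlinarith
    nlinarith
  -- initial block
  have hinit : ∀ x : ℕ, X₀ ≤ x → x ≤ X₁ →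
      (b x : ℝ) ≤ ε * (x - 2 * r - 1) ∧ (x : ℝ) + 2 * r * (r * ε) ≤ (r * ε) * b x := by
    intro x hx0 hx1
    have hv0 : 4 * r ≤ b x := by rw [← hbX₀]; exact h.mono hx0
    have hv1 : b x ≤ X₀ + 1 := by rw [← hbX₁]; exact h.mono hx1
    obtain ⟨hl1, hl2⟩ := h.loc x (by omega)
    set v := b x with hv
    have hv0' : (4 * r : ℝ) ≤ v := by exact_mod_cast hv0
    have hv1' : (v : ℝ) ≤ X₀ + 1 := by exact_mod_cast hv1
    constructor
    · -- upper bound
      have h1 := h.le_S (v - 1) r le_rfl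
      have h2 := h.sq_lower (v - 1 - r)
      set β := b (v - 1 - r) with hβ
      have h3 : v ≤ 2 * (β + 1) ^ 2 := by omega
      have h3' : (v : ℝ) ≤ 2 * ((β : ℝ) + 1) ^ 2 := by exact_mod_cast h3
      have hβ5 : 5 ≤ β := by
        by_contra hlt
        push Not at hlt
        have : β + 1 ≤ 5 := by omega
        have : (β + 1) ^ 2 ≤ 5 ^ 2 := Nat.pow_le_pow_left this 2
        omega
      have hβ5' : (5 : ℝ) ≤ β := by exact_mod_cast hβ5
      have h4 : (v : ℝ) ≤ ε ^ 2 * r ^ 2 / 8 := hv1'.trans hX₀le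
      have hvpos : (0 : ℝ) < v := by linarith
      have h5 : (v : ℝ) ^ 2 ≤ ((r * ε) * (β + 1) / 2) ^ 2 := by
        calc (v : ℝ) ^ 2 = v * v := by ring
          _ ≤ (ε ^ 2 * r ^ 2 / 8) * (2 * ((β : ℝ) + 1) ^ 2) :=
            mul_le_mul h4 h3' hvpos.le (by positivity)
          _ = ((r * ε) * (β + 1) / 2) ^ 2 := by ring
      have h6 : (v : ℝ) ≤ (r * ε) * (β + 1) / 2 :=
        (pow_le_pow_iff_left₀ hvpos.le (by positivity) two_ne_zero).mp h5
      have h7 : (r * ε) * ((β : ℝ) + 1) / 2 ≤ (r * ε) * (β - 2) := by nlinarith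
      have h8 : (r : ℝ) * β + 1 ≤ x := by
        have : r * β + 1 ≤ x := by omega
        exact_mod_cast this
      have h9 : ε * ((r : ℝ) * β + 1 - 2 * r - 1) ≤ ε * (x - 2 * r - 1) :=
        mul_le_mul_of_nonneg_left (by linarith) hε.le
      linarith
    · -- lower bound
      have h1 := h.S_le (v + 1)
      have h2 : (x : ℝ) ≤ r * b (v + 1) := by
        have : x ≤ r * b (v + 1) := by omega
        exact_mod_cast this
      have h3 := hcrude (v + 1) (by omega) (by omega)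
      push_cast at h3
      have h4 : (b (v + 1) : ℝ) ≤ ε * (v - 2 * r) := by
        have h5 : ε ^ 2 / 64 * ((v : ℝ) + 1) ≤ ε * ((v : ℝ) / 2) := by nlinarith
        nlinarith
      have h5 : (r : ℝ) * b (v + 1) ≤ r * (ε * (v - 2 * r)) :=
        mul_le_mul_of_nonneg_left h4 hrpos.le
      linarith
  -- induction
  induction x using Nat.strong_induction_on with
  | _ x ih =>
    rcases le_or_gt x X₁ with hx1 | hx1
    · exact hinit x hx hx1
    · have hX01 : X₀ ≤ X₁ := by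
        have := h.le_self X₁
        omega
      obtain ⟨hU1, _⟩ := hinit X₁ hX01 le_rfl
      have hbX1' : b X₁ + 2 ≤ X₁ := by
        have hpos : 0 ≤ (X₁ : ℝ) - 2 * r - 1 := by
          by_contra hneg
          push Not at hneg
          have h1 : (b X₁ : ℝ) < 0 := lt_of_le_of_lt hU1 (mul_neg_of_pos_of_neg hε hneg)
          have h2 : (0 : ℝ) ≤ b X₁ := Nat.cast_nonneg _
          linarith
        have h3 : ε * ((X₁ : ℝ) - 2 * r - 1) ≤ 1 * (X₁ - 2 * r - 1) :=
          mul_le_mul_of_nonneg_right hε1 hpos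
        have h4 : (b X₁ : ℝ) + 2 ≤ X₁ := by linarith
        exact_mod_cast h4
      have hv0 : X₀ + 1 ≤ b x := by rw [← hbX₁]; exact h.mono hx1.le
      have hv1 : b x + 2 ≤ x := by
        have h1 := h.incr' X₁ (x - X₁)
        have h2 : X₁ + (x - X₁) = x := by omega
        rw [h2] at h1
        omega
      obtain ⟨hl1, hl2⟩ := h.loc x (by omega)
      set v := b x with hv
      obtain ⟨n, hn⟩ : ∃ n, v = n + 1 := ⟨v - 1, by omega⟩
      rw [hn, Nat.add_sub_cancel] at hl1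
      rw [hn] at hl2
      obtain ⟨_, hLn⟩ := ih n (by omega) (by omega)
      obtain ⟨hUn, _⟩ := ih (n + 1 + 1) (by omega) (by omega)
      rw [hn]
      push_cast at hUn ⊢
      constructor
      · have h1 := h.le_S' n
        have h2 : (r : ℝ) * b n < x + r * r := by
          have : r * b n < x + r * r := by omega
          exact_mod_cast this
        have h3 : (r * ε) * (b n : ℝ) < ε * (x + r * r) := by
          have := mul_lt_mul_of_pos_left h2 hε
          linarith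
        have h4 : (14 : ℝ) * 16 ≤ (r - 2) * (r * ε) :=
          mul_le_mul (by linarith) hrε16 (by norm_num) (by linarith)
        linarith
      · have h1 := h.S_le (n + 1 + 1)
        have h2 : (x : ℝ) ≤ r * b (n + 1 + 1) := by
          have : x ≤ r * b (n + 1 + 1) := by omega
          exact_mod_cast this
        have h3 : (r : ℝ) * b (n + 1 + 1) ≤ r * (ε * ((n : ℝ) + 1 + 1 - 2 * r - 1)) :=
          mul_le_mul_of_nonneg_left hUn hrpos.le
        linarith

end NB

/-! ### Transfer -/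

lemma toNB {r : ℕ} {a : ℤ → ℤ} (ha : IsNested r a) : NB r (fun n => (a n).toNat) where
  zero := by simp [ha.zero 0 le_rfl]
  mono := by
    intro m n hmn
    apply Int.toNat_le_toNat
    rcases Nat.eq_zero_or_pos m with rfl | hm
    · rcases Nat.eq_zero_or_pos n with rfl | hn
      · exact le_rfl
      · have h1 := ha.zero 0 le_rfl
        have h2 := ha.pos n (by exact_mod_cast hn)
        push_cast
        rw [h1]; exact h2.le
    · exact ha.mono m n (by exact_mod_cast hm) (by exact_mod_cast hmn)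
  nested := by
    intro n hn
    have hnn : ∀ k : ℤ, 0 ≤ a k := by
      intro k
      rcases le_or_gt k 0 with hk | hk
      · rw [ha.zero k hk]
      · exact (ha.pos k hk).le
    have h1 : ((∑ i ∈ range r, (a ((n - i : ℕ) : ℤ)).toNat : ℕ) : ℤ) = ∑ i ∈ range r, a ((n : ℤ) - i) := by
      push_cast
      apply sum_congr rfl
      intro i _
      rw [Int.toNat_of_nonneg (hnn _)]
      rcases le_total i n with hi | hi
      · rw [Nat.cast_sub hi]
      · rw [Nat.sub_eq_zero_of_le hi, ha.zero ((n : ℤ) - i) (by push_cast at *; omega)]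
        exact ha.zero _ (by simp)
    show (a ((∑ i ∈ range r, (a ((n - i : ℕ) : ℤ)).toNat : ℕ) : ℤ)).toNat = n
    rw [h1, ha.nested n (by exact_mod_cast hn)]
    simp

lemma cast_toNat {r : ℕ} {a : ℤ → ℤ} (ha : IsNested r a) (n : ℕ) :
    (((a n).toNat : ℕ) : ℝ) = (a n : ℝ) := by
  have hnn : 0 ≤ a n := by
    rcases Nat.eq_zero_or_pos n with rfl | hn
    · have := ha.zero 0 le_rfl
      push_cast
      rw [this]
    · exact (ha.pos n (by exact_mod_cast hn)).le
  have : (((a n).toNat : ℕ) : ℤ) = a n := Int.toNat_of_nonneg hnn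
  exact_mod_cast this

lemma ratio_bounds {r : ℕ} {a : ℤ → ℤ} (ha : IsNested r a) (n : ℕ) :
    0 ≤ (a n : ℝ) / n ∧ (a n : ℝ) / n ≤ 1 := by
  have h1 := (toNB ha).le_self n
  rw [← cast_toNat ha]
  constructor
  · positivity
  · rcases Nat.eq_zero_or_pos n with rfl | hn
    · simp
    · rw [div_le_one (by exact_mod_cast hn)]
      exact_mod_cast h1

lemma Lmax_nonneg {r : ℕ} {a : ℤ → ℤ} (ha : IsNested r a) : 0 ≤ Lmax a := by
  unfold Lmax
  apply le_limsup_of_frequently_le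
  · exact Frequently.of_forall (fun n => (ratio_bounds ha n).1)
  · exact isBoundedUnder_of ⟨1, fun n => (ratio_bounds ha n).2⟩

/-- The strong form: a threshold on `r` that works for all solutions of the nested relation. -/
lemma strong (ε : ℝ) (hε : 0 < ε) : ∃ R : ℕ, ∀ r : ℕ, R ≤ r → ∀ a : ℤ → ℤ, IsNested r a →
    (∀ᶠ n : ℕ in atTop, (a n : ℝ) ≤ ε * n) := by
  wlog hε1 : ε ≤ 1 generalizing ε
  · obtain ⟨R, hR⟩ := this 1 one_pos le_rfl
    refine ⟨R, fun r hr a ha => ?_⟩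
    filter_upwards [hR r hr a ha] with n hn
    have : (0 : ℝ) ≤ n := Nat.cast_nonneg n
    push Not at hε1
    nlinarith
  obtain ⟨R, hR⟩ := exists_nat_ge (max ((2000 / (ε ^ 2 / 64) ^ 2 + 20) / (4 * (ε ^ 2 / 64)))
    (16 / ε ^ 2))
  refine ⟨R, fun r hr a ha => ?_⟩
  have hr' : (R : ℝ) ≤ r := by exact_mod_cast hr
  have h1 := (le_max_left _ _).trans (hR.trans hr')
  have h2 := (le_max_right _ _).trans (hR.trans hr')
  filter_upwards [eventually_ge_atTop (S r (fun n : ℕ => (a n).toNat) (4 * r))] with n hn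
  have h3 := ((toNB ha).main hε hε1 h1 h2 n hn).1
  rw [cast_toNat ha] at h3
  have h4 : (0 : ℝ) ≤ r := Nat.cast_nonneg r
  nlinarith

lemma Lmax_le {r : ℕ} {a : ℤ → ℤ} (ha : IsNested r a) {ε : ℝ}
    (h : ∀ᶠ n : ℕ in atTop, (a n : ℝ) ≤ ε * n) : Lmax a ≤ ε := by
  unfold Lmax
  apply limsup_le_of_le
  · exact isCoboundedUnder_le_of_le atTop (fun n => (ratio_bounds ha n).1)
  · filter_upwards [h, eventually_gt_atTop 0] with n hn hn0
    rw [div_le_iff₀ (by exact_mod_cast hn0)]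
    exact hn

/-- **Q1 of MP_04502c_nt is true**: `lim_{r → ∞} L_max(r) = 0`.

* For every `ε > 0` there is `R` such that for all `r ≥ R` every nondecreasing sequence of positive
  integers satisfying the nested relation of order `r` (minimality is not needed) satisfies
  `a(n) ≤ ε n` for all large `n`, and so `limsup a(n)/n ≤ ε`.
* In particular, for the almost Golomb sequences `a_r`, `r ≥ 2`, the numbers
  `L_max(r) = limsup a_r(n)/n` tend to `0` as `r → ∞`. -/
theorem result :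
    (∀ ε : ℝ, 0 < ε → ∃ R : ℕ, ∀ r : ℕ, R ≤ r → ∀ a : ℤ → ℤ, IsNested r a →
      (∀ᶠ n : ℕ in atTop, (a n : ℝ) ≤ ε * n) ∧ Lmax a ≤ ε) ∧
    (∀ a : ℕ → ℤ → ℤ, (∀ r : ℕ, 2 ≤ r → IsAlmostGolomb r (a r)) →
      Tendsto (fun r : ℕ => Lmax (a r)) atTop (𝓝 0)) := by
  have h1 : ∀ ε : ℝ, 0 < ε → ∃ R : ℕ, ∀ r : ℕ, R ≤ r → ∀ a : ℤ → ℤ, IsNested r a →
      (∀ᶠ n : ℕ in atTop, (a n : ℝ) ≤ ε * n) ∧ Lmax a ≤ ε := by
    intro ε hε
    obtain ⟨R, hR⟩ := strong ε hε
    exact ⟨R, fun r hr a ha => ⟨hR r hr a ha, Lmax_le ha (hR r hr a ha)⟩⟩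
  refine ⟨h1, fun a ha => ?_⟩
  rw [Metric.tendsto_atTop]
  intro ε hε
  obtain ⟨R, hR⟩ := h1 (ε / 2) (by linarith)
  refine ⟨max R 2, fun r hr => ?_⟩
  have hr1 : R ≤ r := (le_max_left _ _).trans hr
  have hr2 : 2 ≤ r := (le_max_right _ _).trans hr
  have h2 := (hR r hr1 (a r) (ha r hr2).toIsNested).2
  have h3 := Lmax_nonneg (ha r hr2).toIsNested
  rw [Real.dist_eq, sub_zero, abs_of_nonneg h3]
  linarith

end Pool.Agent.Results.MP_04502c_nt.LimitZero
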